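import Mathlib
import Pool.Agent.Lib.P8ebff2.Word
import Pool.Agent.Lib.P8ebff2.Defs
import Pool.Agent.Lib.P8ebff2.Tree
import Pool.Agent.Lib.P8ebff2.Final
/-!
# Factor of i.i.d. processes on the `d`-regular tree are not closed under `d̄₂`-limits (`d ≥ 3`)

`Td d` is the explicit `d`-regular tree (reduced words in `d` involutive letters), `IsProcess G μ`
says that `μ` is the law of an `Aut(G)`-invariant real process with finite second moments,
`IsFIID G μ` that it is the law of a factor of i.i.d. process, `IsFIIDae G μ` the same with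
equivariance required only almost surely for each automorphism, and `dbarSq G o μ μ'` is the
square of the `d̄₂`-distance.
-/
open MeasureTheory Filter Topology
namespace Pool.Agent.Results.MP_8ebff2_pr.Main
open P8ebff2

/-- For every `d ≥ 3`, on the `d`-regular tree there are factor of i.i.d. processes with finite
second moments converging in `d̄₂` to an invariant process with finite second moments which is not
a factor of i.i.d., not even with almost sure equivariance. -/
theorem result (d : ℕ) (hd : 3 ≤ d) :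
    ((Td d).IsTree ∧ (∀ v, ((Td d).neighborSet v).Finite ∧ ((Td d).neighborSet v).ncard = d) ∧
      (∀ v w, ∃ φ : Td d ≃g Td d, φ v = w) ∧ Infinite (Wd d) ∧ Countable (Wd d)) ∧
    ∃ (X : ℕ → Measure (Wd d → ℝ)) (Y : Measure (Wd d → ℝ)),
      (∀ n, IsProcess (Td d) (X n) ∧ IsFIID (Td d) (X n)) ∧
      IsProcess (Td d) Y ∧
      (∀ o, Tendsto (fun n => dbarSq (Td d) o (X n) Y) atTop (𝓝 0)) ∧
      ¬ IsFIID (Td d) Y ∧ ¬ IsFIIDae (Td d) Y := by
  refine ⟨⟨td_isTree d, fun v => ⟨td_finite_nbr v, td_ncard v⟩, fun v w => ?_,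
    td_infinite (by omega), inferInstance⟩, ?_⟩
  · obtain ⟨φ, hφ⟩ := exists_trIso v
    obtain ⟨ψ, hψ⟩ := exists_trIso w
    refine ⟨φ.symm.trans ψ, ?_⟩
    have h1 : φ.symm v = Wd.root d := by
      rw [RelIso.symm_apply_eq, hφ, tr_root]
    rw [RelIso.trans_apply, h1, hψ, tr_root]
  · obtain ⟨X, Y, h1, h2, h3, h4⟩ := exists_counterexample d hd
    exact ⟨X, Y, h1, h2, h3, fun h => h4 h.ae, h4⟩

end Pool.Agent.Results.MP_8ebff2_pr.Main
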